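import Pool.Agent.Helper5.KPA.StD

/-!
# PROJECT KP, chapter A: module ARS

The residue map of a homogeneous polynomial monic in `X_0`.
-/

set_option autoImplicit false

namespace Pool.Agent.Helper42.KPA

open Pool.Agent.Helper5.KPA Pool.Agent.Helper52.KP MvPolynomial

lemma fse_up {e : ℕ} (α : MvPolynomial (Fin e) ℂ) :
    finSuccEquiv ℂ e (up α) = Polynomial.C α := by
  unfold up
  induction α using MvPolynomial.induction_on with
  | C a => simp [finSuccEquiv_apply]
  | add p q hp hq => simp only [map_add, hp, hq]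
  | mul_X p i hp => simp only [map_mul, hp, rename_X, finSuccEquiv_X_succ]

lemma fse_monic {e δ : ℕ} {f : MvPolynomial (Fin (e + 1)) ℂ} (h : Mo f δ) :
    (finSuccEquiv ℂ e f).Monic ∧ (finSuccEquiv ℂ e f).natDegree = δ := by
  obtain ⟨h1, h2⟩ := h
  have hh : f.IsHomogeneous δ := by
    unfold hp at h1
    rw [if_pos (by positivity)] at h1
    simpa using h1
  have hd : (finSuccEquiv ℂ e f).natDegree ≤ δ := by
    rw [natDegree_finSuccEquiv]
    exact (degreeOf_le_totalDegree f 0).trans hh.totalDegree_le
  have hc : (finSuccEquiv ℂ e f).coeff δ = 1 := by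
    ext m
    rw [finSuccEquiv_coeff_coeff, coeff_one]
    by_cases hm : m = 0
    · subst hm
      have : (Finsupp.cons δ (0 : Fin e →₀ ℕ)) = Finsupp.single 0 δ := by
        ext i
        refine Fin.cases ?_ (fun j => ?_) i
        · simp
        · simp [Finsupp.cons_succ]
      rw [this, h2]
      simp
    · rw [if_neg (Ne.symm hm)]
      apply hh.coeff_eq_zero
      rw [Finsupp.degree_eq_sum, Fin.sum_univ_succ]
      simp only [Finsupp.cons_zero, Finsupp.cons_succ]
      intro h
      apply hm
      have h0 : ∑ i, m i = 0 := by omega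
      ext i
      have := (Finset.sum_eq_zero_iff.mp h0) i (Finset.mem_univ i)
      simpa using this
  exact ⟨Polynomial.monic_of_natDegree_le_of_coeff_eq_one δ hd hc,
    le_antisymm hd (Polynomial.le_natDegree_of_ne_zero (by rw [hc]; exact one_ne_zero))⟩

/-- the residue map -/
noncomputable def res {e : ℕ} (δ : ℕ) (f : MvPolynomial (Fin (e + 1)) ℂ) :
    MvPolynomial (Fin (e + 1)) ℂ →ₗ[ℂ] MvPolynomial (Fin e) ℂ where
  toFun p := (finSuccEquiv ℂ e p %ₘ finSuccEquiv ℂ e f).coeff (δ - 1)
  map_add' p q := by rw [map_add, Polynomial.add_modByMonic, Polynomial.coeff_add]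
  map_smul' a p := by
    have : finSuccEquiv ℂ e (a • p) = (C a : MvPolynomial (Fin e) ℂ) • finSuccEquiv ℂ e p := by
      rw [map_smul, Polynomial.smul_eq_C_mul]
      rw [Algebra.smul_def]
      congr 1
    rw [this, Polynomial.smul_modByMonic, Polynomial.coeff_smul]
    simp [smul_eq_C_mul]

theorem hARS : StARS := by
  intro e δ f hδ hf
  obtain ⟨hm, hn⟩ := fse_monic hf
  have happ : ∀ p, res δ f p = (finSuccEquiv ℂ e p %ₘ finSuccEquiv ℂ e f).coeff (δ - 1) :=
    fun p => rfl
  refine ⟨res δ f, fun p => ?_, fun α p => ?_, fun p hp => ?_⟩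
  · rw [happ, map_mul, (Polynomial.modByMonic_eq_zero_iff_dvd hm).mpr (dvd_mul_right _ _)]
    simp
  · rw [happ, happ, map_mul, fse_up, ← Polynomial.smul_eq_C_mul, Polynomial.smul_modByMonic,
      Polynomial.coeff_smul, smul_eq_mul]
  · by_contra hdv
    set F := finSuccEquiv ℂ e f with hF
    set P := finSuccEquiv ℂ e p with hP
    set r := P %ₘ F with hr
    have hr0 : r ≠ 0 := by
      intro h0
      apply hdv
      have h1 : F ∣ P := (Polynomial.modByMonic_eq_zero_iff_dvd hm).mp h0
      exact (map_dvd_iff (finSuccEquiv ℂ e)).mp h1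
    have hF1 : F ≠ 1 := by
      intro h1
      rw [h1, Polynomial.natDegree_one] at hn
      omega
    have hlt : r.natDegree < δ := by
      have := Polynomial.natDegree_modByMonic_lt P hm hF1
      rw [hn] at this
      exact this
    have h2 := hp (δ - 1 - r.natDegree)
    rw [happ, map_mul, map_pow, finSuccEquiv_X_zero, ← hP] at h2
    set j := δ - 1 - r.natDegree with hj
    have h3 : (Polynomial.X ^ j * P) %ₘ F = Polynomial.X ^ j * r := by
      have h4 : Polynomial.X ^ j * P = Polynomial.X ^ j * r + F * (Polynomial.X ^ j * (P /ₘ F)) := by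
        have := Polynomial.modByMonic_add_div P F
        rw [← hr] at this
        calc Polynomial.X ^ j * P = Polynomial.X ^ j * (r + F * (P /ₘ F)) := by rw [this]
          _ = _ := by ring
      rw [h4, Polynomial.add_modByMonic,
        (Polynomial.modByMonic_eq_zero_iff_dvd hm).mpr (dvd_mul_right F _), add_zero]
      rw [Polynomial.modByMonic_eq_self_iff hm]
      apply Polynomial.degree_lt_degree
      rw [hn]
      refine lt_of_le_of_lt Polynomial.natDegree_mul_le ?_
      rw [Polynomial.natDegree_X_pow]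
      omega
    rw [h3, Polynomial.coeff_X_pow_mul'] at h2
    have hle : j ≤ δ - 1 := by omega
    rw [if_pos hle] at h2
    have h5 : δ - 1 - j = r.natDegree := by omega
    rw [h5] at h2
    exact hr0 (Polynomial.leadingCoeff_eq_zero.mp h2)

end Pool.Agent.Helper42.KPA
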