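import Pool.Agent.Helper85.KPA.StC

/-!
# PROJECT KP, chapter A, part C: module CDV (bounded division of polynomials)
-/

set_option autoImplicit false

namespace Pool.Agent.Helper42.KPA

open Pool.Agent.Helper85.KPA Pool.Agent.Helper5.KPA Pool.Agent.Helper52.KP MvPolynomial

/-- a polynomial which vanishes where a prime polynomial vanishes is divisible by it -/
lemma dvd_of_zeros {m : ℕ} (p N : MvPolynomial (Fin m) ℂ) (hp : Prime p)
    (h : ∀ z, ev p z = 0 → ev N z = 0) : p ∣ N := by
  have hprime : (Ideal.span {p}).IsPrime := (Ideal.span_singleton_prime hp.ne_zero).mpr hp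
  have h1 : N ∈ vanishingIdeal ℂ (zeroLocus ℂ (Ideal.span {p})) := by
    rw [mem_vanishingIdeal_iff]
    intro x hx
    rw [mem_zeroLocus_iff] at hx
    have h2 := hx p (Ideal.subset_span rfl)
    have h3 : ev p x = 0 := by simpa [aeval_eq_eval] using h2
    have h4 := h x h3
    simpa [aeval_eq_eval] using h4
  rw [vanishingIdeal_zeroLocus_eq_radical, hprime.radical] at h1
  exact Ideal.mem_span_singleton.mp h1

theorem hCDV (hCDN : StCDN) : StCDV := by
  intro m N D P B hB hP hD h
  obtain ⟨N', D', c, hrel, hN, hD'⟩ := UniqueFactorizationMonoid.exists_reduced_factors' N D hD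
  have hc0 : c ≠ 0 := by
    rintro rfl
    exact hD (by rw [← hD', zero_mul])
  have hD0 : D' ≠ 0 := by
    rintro rfl
    exact hD (by rw [← hD', mul_zero])
  have h1 : ∀ z, ev (P * c) z ≠ 0 → ‖ev N' z‖ ≤ B z * ‖ev D' z‖ := by
    intro z hz
    have hz' : ev P z ≠ 0 ∧ ev c z ≠ 0 := by
      have : ev P z * ev c z ≠ 0 := by
        have e : ev (P * c) z = ev P z * ev c z := map_mul _ _ _
        rwa [e] at hz
      exact ⟨left_ne_zero_of_mul this, right_ne_zero_of_mul this⟩
    have h2 := h z hz'.1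
    have e1 : ev N z = ev c z * ev N' z := by rw [← hN]; exact map_mul _ _ _
    have e2 : ev D z = ev c z * ev D' z := by rw [← hD']; exact map_mul _ _ _
    rw [e1, e2, norm_mul, norm_mul] at h2
    have hpos : 0 < ‖ev c z‖ := norm_pos_iff.mpr hz'.2
    have h3 : ‖ev c z‖ * ‖ev N' z‖ ≤ ‖ev c z‖ * (B z * ‖ev D' z‖) := by
      calc ‖ev c z‖ * ‖ev N' z‖ ≤ B z * (‖ev c z‖ * ‖ev D' z‖) := h2
        _ = _ := by ring
    exact le_of_mul_le_mul_left h3 hpos
  have hcont : ∀ Q : MvPolynomial (Fin m) ℂ, Continuous fun z : Fin m → ℂ => ‖ev Q z‖ :=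
    fun Q => (MvPolynomial.continuous_eval Q).norm
  have h2 : ∀ z, ‖ev N' z‖ ≤ B z * ‖ev D' z‖ :=
    hCDN m (P * c) (fun z => ‖ev N' z‖) (fun z => B z * ‖ev D' z‖) (mul_ne_zero hP hc0)
      (hcont N') (hB.mul (hcont D')) h1
  have hu : IsUnit D' := by
    by_contra hnu
    obtain ⟨p, hpi, hpd⟩ := WfDvdMonoid.exists_irreducible_factor hnu hD0
    have hp : Prime p := hpi.prime
    have hpN : p ∣ N' := by
      apply dvd_of_zeros p N' hp
      intro z hz
      obtain ⟨q, hq⟩ := hpd
      have h3 : ev D' z = 0 := by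
        rw [hq]
        have e : ev (p * q) z = ev p z * ev q z := map_mul _ _ _
        rw [e, hz, zero_mul]
      have h4 := h2 z
      rw [h3, norm_zero, mul_zero] at h4
      exact norm_le_zero_iff.mp h4
    exact hp.not_unit (hrel hpN hpd)
  obtain ⟨u, hu'⟩ := hu
  rw [← hN, ← hD', ← hu']
  refine mul_dvd_mul_left c ?_
  exact (Units.isUnit u).dvd

end Pool.Agent.Helper42.KPA
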